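import Mathlib
import Pool.Agent.Helper67.BN.Tools

/-! Bushy tree forcing for `B(≠*, 2^h) ⊄ B(≠*, 2^g)`; a version with two functions `g`, `h` of the
files `Pool/Agent/Helper67/BN`. -/

set_option autoImplicit false

namespace Pool.Agent.Y529.HC

open Pool.Agent.Helper67.BN

/-- the data of the construction -/
class Par where
  gg : ℕ → ℕ
  hh : ℕ → ℕ
  nx : ℕ → ℕ → ℕ → ℕ → ℕ
  b0 : ℕ
  cgg : Computable gg
  chh : Computable hh
  cnx : Computable fun p : ℕ × ℕ × ℕ × ℕ => nx p.1 p.2.1 p.2.2.1 p.2.2.2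
  mg : Monotone gg
  tail : ∀ b i, b0 ≤ b → b ≤ i → 2 ^ (hh b / 3) * (i + 1) ^ 2 ≤ 2 ^ hh i
  start : 2 ≤ hh b0 / 3
  nx_lt : ∀ k b c W, b < nx k b c W
  nx_big : ∀ k b c W, (k + 1) * (gg (W + c * nx k b c W) + 1) + 2 ≤ hh (nx k b c W) / 3

export Par (gg hh nx b0)

variable [Par]

/-- the exponent bounding the number of values at an argument below `W` -/
def gw (W : ℕ) : ℕ := gg W + 1

/-- the end of the next block -/
def nb (k : ℕ) (p : ℕ × ℕ × ℕ) : ℕ := nx k p.1 (2 * p.2.1 * 2 ^ (k * gw p.2.2)) p.2.2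

/-- one step of the recursion for `(b, G, W)` -/
def stp (k : ℕ) (p : ℕ × ℕ × ℕ) : ℕ × ℕ × ℕ :=
  (nb k p, p.2.1 * (2 * nb k p * 2 ^ (k * gw p.2.2)),
   p.2.2 + p.2.1 * (2 * nb k p * 2 ^ (k * gw p.2.2)))

def st (k : ℕ) : ℕ × ℕ × ℕ :=
  Nat.rec (motive := fun _ => ℕ × ℕ × ℕ) (b0, 1, 1) (fun k p => stp k p) k

/-- end of the `k`-th block -/
def bb (k : ℕ) : ℕ := (st k).1
/-- number of nodes of level `k` -/
def GG (k : ℕ) : ℕ := (st k).2.1
/-- number of nodes of level `≤ k` -/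
def WW (k : ℕ) : ℕ := (st k).2.2
/-- number of successors of a node of level `k` -/
def NN (k : ℕ) : ℕ := 2 * bb (k + 1) * 2 ^ (k * gw (WW k))
/-- bound for the number of successors hit by one function -/
def HH (k : ℕ) : ℕ := bb (k + 1) + 2 * (NN k / 2 ^ (hh (bb k) / 3))

theorem bb_zero : bb 0 = b0 := rfl
theorem GG_zero : GG 0 = 1 := rfl
theorem WW_zero : WW 0 = 1 := rfl

theorem bb_succ (k : ℕ) :
    bb (k + 1) = nx k (bb k) (2 * GG k * 2 ^ (k * gw (WW k))) (WW k) := rfl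

theorem GG_succ (k : ℕ) : GG (k + 1) = GG k * NN k := rfl

theorem WW_succ (k : ℕ) : WW (k + 1) = WW k + GG (k + 1) := rfl

theorem bb_lt_succ (k : ℕ) : bb k < bb (k + 1) := by
  rw [bb_succ]
  exact Par.nx_lt _ _ _ _

theorem bb_succ_pos (k : ℕ) : 0 < bb (k + 1) := by
  have := bb_lt_succ k
  omega

theorem NN_pos (k : ℕ) : 0 < NN k := by
  unfold NN
  have := bb_succ_pos k
  positivity

theorem GG_pos (k : ℕ) : 0 < GG k := by
  induction k with
  | zero => simp [GG_zero]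
  | succ k ih =>
    rw [GG_succ]
    exact Nat.mul_pos ih (NN_pos k)

theorem HH_pos (k : ℕ) : 0 < HH k := by
  unfold HH
  have := bb_succ_pos k
  omega

theorem WW_succ' (k : ℕ) :
    WW (k + 1) = WW k + (2 * GG k * 2 ^ (k * gw (WW k))) * bb (k + 1) := by
  rw [WW_succ, GG_succ]
  unfold NN
  ring

theorem fact_bound (k : ℕ) : k * gw (WW k) + 2 ≤ hh (bb k) / 3 := by
  cases k with
  | zero =>
    have := Par.start
    rw [bb_zero]
    simpa using this
  | succ k =>
    rw [WW_succ', bb_succ]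
    exact Par.nx_big k (bb k) (2 * GG k * 2 ^ (k * gw (WW k))) (WW k)

theorem HH_mul_le (k : ℕ) : HH k * 2 ^ (k * gw (WW k)) ≤ NN k := by
  have h1 := fact_bound k
  set e := k * gw (WW k) with he
  have hN : NN k = 2 * bb (k + 1) * 2 ^ e := rfl
  have h2 : 2 * (NN k / 2 ^ (hh (bb k) / 3)) * 2 ^ e ≤ bb (k + 1) * 2 ^ e := by
    have h3 : NN k / 2 ^ (hh (bb k) / 3) ≤ NN k / 2 ^ (e + 2) :=
      Nat.div_le_div_left (Nat.pow_le_pow_right (by norm_num) h1) (by positivity)
    have h4 : NN k / 2 ^ (e + 2) * 2 ^ (e + 2) ≤ NN k := Nat.div_mul_le_self _ _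
    have h5 : 4 * (NN k / 2 ^ (e + 2) * 2 ^ e) ≤ 2 * bb (k + 1) * 2 ^ e := by
      rw [← hN]
      calc 4 * (NN k / 2 ^ (e + 2) * 2 ^ e) = NN k / 2 ^ (e + 2) * 2 ^ (e + 2) := by
            rw [pow_add]; ring
        _ ≤ NN k := h4
    have h6 : NN k / 2 ^ (hh (bb k) / 3) * 2 ^ e ≤ NN k / 2 ^ (e + 2) * 2 ^ e :=
      Nat.mul_le_mul_right _ h3
    nlinarith
  calc HH k * 2 ^ e = bb (k + 1) * 2 ^ e + 2 * (NN k / 2 ^ (hh (bb k) / 3)) * 2 ^ e := by
        unfold HH; ring
    _ ≤ bb (k + 1) * 2 ^ e + bb (k + 1) * 2 ^ e := by gcongr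
    _ = NN k := by rw [hN]; ring

theorem bb_strictMono : StrictMono bb := strictMono_nat_of_lt_succ bb_lt_succ

theorem b0_le_bb (k : ℕ) : b0 ≤ bb k := by
  rw [← bb_zero]
  exact bb_strictMono.monotone (Nat.zero_le k)

theorem WW_lt_succ (k : ℕ) : WW k < WW (k + 1) := by
  rw [WW_succ]
  have := GG_pos (k + 1)
  omega

theorem WW_strictMono : StrictMono WW := strictMono_nat_of_lt_succ WW_lt_succ

theorem lt_WW (k : ℕ) : k < WW k := by
  induction k with
  | zero => simp [WW_zero]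
  | succ k ih => have := WW_lt_succ k; omega

/-! ### Computability -/

section
variable {α : Type} [Primcodable α] {O : Set (ℕ →. ℕ)}

theorem cgg' {f : α → ℕ} (hf : ComputableIn O f) : ComputableIn O fun a => gg (f a) :=
  ci_compC (f := gg) Par.cgg hf

theorem cgw {f : α → ℕ} (hf : ComputableIn O f) : ComputableIn O fun a => gw (f a) :=
  cadd (cgg' hf) (cconst 1)

theorem chh' {f : α → ℕ} (hf : ComputableIn O f) : ComputableIn O fun a => hh (f a) :=
  ci_compC (f := hh) Par.chh hf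

theorem cnx' {f1 f2 f3 f4 : α → ℕ} (h1 : ComputableIn O f1) (h2 : ComputableIn O f2)
    (h3 : ComputableIn O f3) (h4 : ComputableIn O f4) :
    ComputableIn O fun a => nx (f1 a) (f2 a) (f3 a) (f4 a) :=
  ci_compC (f := fun p : ℕ × ℕ × ℕ × ℕ => nx p.1 p.2.1 p.2.2.1 p.2.2.2) Par.cnx
    (ci_pair h1 (ci_pair h2 (ci_pair h3 h4)))

end

theorem cst {O : Set (ℕ →. ℕ)} : ComputableIn O st := by
  have hpow : ComputableIn₂ O fun (_ : ℕ) (q : ℕ × ℕ × ℕ × ℕ) => stp q.1 q.2 := by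
    have hk : ComputableIn O fun a : ℕ × ℕ × ℕ × ℕ × ℕ => a.2.1 := ci_comp ci_fst ci_snd
    have hB : ComputableIn O fun a : ℕ × ℕ × ℕ × ℕ × ℕ => a.2.2.1 :=
      ci_comp ci_fst (ci_comp ci_snd ci_snd)
    have hG : ComputableIn O fun a : ℕ × ℕ × ℕ × ℕ × ℕ => a.2.2.2.1 :=
      ci_comp ci_fst (ci_comp ci_snd (ci_comp ci_snd ci_snd))
    have hW : ComputableIn O fun a : ℕ × ℕ × ℕ × ℕ × ℕ => a.2.2.2.2 :=
      ci_comp ci_snd (ci_comp ci_snd (ci_comp ci_snd ci_snd))
    have hQ := cpw 2 (cmul hk (cgw hW))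
    have hb := cnx' hk hB (cmul (cmul (cconst 2) hG) hQ) hW
    have hN := cmul hG (cmul (cmul (cconst 2) hb) hQ)
    exact ci_pair hb (ci_pair hN (cadd hW hN))
  exact ci_nat_rec (f := fun k : ℕ => k) (g := fun _ => ((b0, 1, 1) : ℕ × ℕ × ℕ))
    (h := fun _ q => stp q.1 q.2) ComputableIn.id (cconst _) hpow

section
variable {α : Type} [Primcodable α] {O : Set (ℕ →. ℕ)}

theorem cbb {f : α → ℕ} (hf : ComputableIn O f) : ComputableIn O fun a => bb (f a) :=
  ci_comp (f := fun p : ℕ × ℕ × ℕ => p.1) (g := fun a => st (f a)) ci_fst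
    (ci_comp (f := st) (g := f) cst hf)

theorem cGG {f : α → ℕ} (hf : ComputableIn O f) : ComputableIn O fun a => GG (f a) :=
  ci_comp (f := fun p : ℕ × ℕ × ℕ => p.2.1) (g := fun a => st (f a)) (ci_comp ci_fst ci_snd)
    (ci_comp (f := st) (g := f) cst hf)

theorem cWW {f : α → ℕ} (hf : ComputableIn O f) : ComputableIn O fun a => WW (f a) :=
  ci_comp (f := fun p : ℕ × ℕ × ℕ => p.2.2) (g := fun a => st (f a)) (ci_comp ci_snd ci_snd)
    (ci_comp (f := st) (g := f) cst hf)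

theorem cNN {f : α → ℕ} (hf : ComputableIn O f) : ComputableIn O fun a => NN (f a) :=
  cmul (cmul (cconst 2) (cbb (cadd hf (cconst 1)))) (cpw 2 (cmul hf (cgw (cWW hf))))

theorem cHH {f : α → ℕ} (hf : ComputableIn O f) : ComputableIn O fun a => HH (f a) :=
  cadd (cbb (cadd hf (cconst 1)))
    (cmul (cconst 2) (cdiv (cNN hf) (cpw 2 (cdiv (chh' (cbb hf)) (cconst 3)))))

end

/-! ### Hits -/

/-- The function `x` hits the successor `j` of a node of level `k`. -/
def Hit (x : ℕ → ℕ) (k j : ℕ) : Prop := ∃ i, bb k ≤ i ∧ i < bb (k + 1) ∧ x i = j % 2 ^ hh i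

omit [Par] in
theorem card_mod_le (N q v : ℕ) :
    ((Finset.range N).filter fun j => v = j % q).card ≤ N / q + 1 := by
  have h1 : ((Finset.range N).filter fun j => v = j % q) ⊆
      (Finset.range (N / q + 1)).image (fun t => v + q * t) := by
    intro j hj
    simp only [Finset.mem_filter, Finset.mem_range] at hj
    simp only [Finset.mem_image, Finset.mem_range]
    refine ⟨j / q, ?_, ?_⟩
    · have := Nat.div_le_div_right (c := q) hj.1.le
      omega
    · rw [hj.2]; exact Nat.mod_add_div j q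
  calc _ ≤ ((Finset.range (N / q + 1)).image (fun t => v + q * t)).card := Finset.card_le_card h1
    _ ≤ (Finset.range (N / q + 1)).card := Finset.card_image_le
    _ = N / q + 1 := Finset.card_range _

omit [Par] in
theorem sum_sq_real (x : ℝ) (hx : 0 ≤ x) (T : ℕ) :
    ∑ t ∈ Finset.range (T + 1), x / ((t : ℝ) + 1) ^ 2 ≤ 2 * x - x / ((T : ℝ) + 1) := by
  induction T with
  | zero => simp; linarith
  | succ T ih =>
    rw [Finset.sum_range_succ]
    have h1 : (0 : ℝ) < (T : ℝ) + 1 := by positivity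
    have h2 : x / (((T : ℝ) + 1) + 1) ^ 2 ≤ x / ((T : ℝ) + 1) - x / (((T : ℝ) + 1) + 1) := by
      have h3 : x / ((T : ℝ) + 1) - x / (((T : ℝ) + 1) + 1)
          = x / (((T : ℝ) + 1) * (((T : ℝ) + 1) + 1)) := by
        field_simp
        ring
      rw [h3]
      apply div_le_div_of_nonneg_left hx (by positivity)
      nlinarith
    push_cast
    linarith

omit [Par] in
theorem sum_sq (x b T : ℕ) : ∑ t ∈ Finset.range T, x / (b + t + 1) ^ 2 ≤ 2 * x := by
  have h0 : ∑ t ∈ Finset.range T, x / (b + t + 1) ^ 2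
      ≤ ∑ t ∈ Finset.range (T + 1), x / (t + 1) ^ 2 := by
    refine le_trans (Finset.sum_le_sum (g := fun t => x / (t + 1) ^ 2) fun t _ => ?_) ?_
    · exact Nat.div_le_div_left (Nat.pow_le_pow_left (by omega) 2) (by positivity)
    · exact Finset.sum_le_sum_of_subset (Finset.range_mono (Nat.le_succ T))
  refine h0.trans ?_
  have h1 := sum_sq_real (x : ℝ) (Nat.cast_nonneg x) T
  have h2 : ((∑ t ∈ Finset.range (T + 1), x / (t + 1) ^ 2 : ℕ) : ℝ)
      ≤ ∑ t ∈ Finset.range (T + 1), (x : ℝ) / ((t : ℝ) + 1) ^ 2 := by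
    push_cast
    refine Finset.sum_le_sum fun t _ => ?_
    have := @Nat.cast_div_le ℝ _ _ _ x ((t + 1) ^ 2)
    push_cast at this
    exact this
  have h3 : (0 : ℝ) ≤ (x : ℝ) / ((T : ℝ) + 1) := by positivity
  have h4 : ((∑ t ∈ Finset.range (T + 1), x / (t + 1) ^ 2 : ℕ) : ℝ) ≤ ((2 * x : ℕ) : ℝ) := by
    push_cast
    push_cast at h2
    linarith
  exact_mod_cast h4

open Classical in
theorem card_hit_le (x : ℕ → ℕ) (k : ℕ) :
    ((Finset.range (NN k)).filter fun j => Hit x k j).card ≤ HH k := by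
  set T := bb (k + 1) - bb k with hT
  have hb := bb_lt_succ k
  have h1 : ((Finset.range (NN k)).filter fun j => Hit x k j) ⊆
      (Finset.range T).biUnion (fun t =>
        (Finset.range (NN k)).filter fun j => x (bb k + t) = j % 2 ^ hh (bb k + t)) := by
    intro j hj
    simp only [Finset.mem_filter, Finset.mem_range] at hj
    obtain ⟨hj1, i, hi1, hi2, hi3⟩ := hj
    simp only [Finset.mem_biUnion, Finset.mem_filter, Finset.mem_range]
    refine ⟨i - bb k, by omega, hj1, ?_⟩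
    have : bb k + (i - bb k) = i := by omega
    rw [this]; exact hi3
  calc _ ≤ ((Finset.range T).biUnion (fun t =>
        (Finset.range (NN k)).filter fun j => x (bb k + t) = j % 2 ^ hh (bb k + t))).card :=
        Finset.card_le_card h1
    _ ≤ ∑ t ∈ Finset.range T, ((Finset.range (NN k)).filter fun j =>
          x (bb k + t) = j % 2 ^ hh (bb k + t)).card := Finset.card_biUnion_le
    _ ≤ ∑ t ∈ Finset.range T, ((NN k / 2 ^ (hh (bb k) / 3)) / (bb k + t + 1) ^ 2 + 1) := by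
        refine Finset.sum_le_sum fun t _ => ?_
        refine (card_mod_le _ _ _).trans ?_
        have h2 : NN k / 2 ^ hh (bb k + t)
            ≤ NN k / (2 ^ (hh (bb k) / 3) * (bb k + t + 1) ^ 2) :=
          Nat.div_le_div_left (Par.tail (bb k) (bb k + t) (b0_le_bb k) (Nat.le_add_right _ _))
            (by positivity)
        rw [← Nat.div_div_eq_div_mul] at h2
        omega
    _ = ∑ t ∈ Finset.range T, ((NN k / 2 ^ (hh (bb k) / 3)) / (bb k + t + 1) ^ 2) + T := by
        rw [Finset.sum_add_distrib]; simp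
    _ ≤ 2 * (NN k / 2 ^ (hh (bb k) / 3)) + T := by
        gcongr
        exact sum_sq _ _ _
    _ ≤ HH k := by
        unfold HH
        omega

end Pool.Agent.Y529.HC
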