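import Mathlib
import Pool.Agent.Y529.HC.Main1
import Pool.Agent.Helper67.BN.Use

set_option autoImplicit false

namespace Pool.Agent.Y529.HC

open Pool.Agent.Helper67.BN

variable [Par]

open Nat.Partrec (Code)
open Nat.Partrec.Code
open Encodable

/-! ### The generic sequence of conditions -/

theorem not_big_false {r : ℕ → ℕ} (hr : ∀ k, 0 < r k) {σ : List ℕ} :
    ¬ Big r (fun _ => False) σ := by
  intro h
  induction h with
  | leaf σ h => exact h
  | node σ S h1 h2 h3 ih =>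
    have h4 : 0 < S.card := lt_of_lt_of_le (hr _) h2
    obtain ⟨j, hj⟩ := Finset.card_pos.1 h4
    exact ih j hj

def cond0 : Cond where
  s := []
  B := fun _ => False
  g := fun _ => 0
  G := fun k => k
  hs := InT.nil
  hB := ⟨fun _ _ => false, cconst _, fun τ => by simp⟩
  hg := cconst 0
  hG := ComputableIn.id
  mono := fun _ _ _ h => h
  small := not_big_false fun k => Nat.mul_pos (HH_pos k) (by positivity)
  gap := fun C => ⟨C, fun k hk => by simpa using hk⟩
  le := fun k _ => ⟨Nat.zero_le _, le_rfl⟩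

/-- what the generic sequence has to meet -/
def Dns : ℕ ⊕ Code ⊕ Code ⊕ (Code × Code × ℕ) → Set Cond
  | Sum.inl n => {q | n ≤ q.s.length}
  | Sum.inr (Sum.inl cx) => {q | ∀ x : ℕ → ℕ, ComputableIn ∅ x → (∀ n, x n ∈ cx.eval n) →
      ∃ k₀, ∀ τ, HitAbove x k₀ τ → q.B τ}
  | Sum.inr (Sum.inr (Sum.inl c)) => {q | (∃ m, ∀ τ, DD c m τ → q.B τ) ∨
      ∃ X : List ℕ → ℕ, ComputableIn ∅ X ∧ ∀ K, ∀ q' : Cond, q ≤ q' → ∃ q'' : Cond, q' ≤ q'' ∧
        Hits c X K q''}
  | Sum.inr (Sum.inr (Sum.inr (c, cX, K))) => {q | ∀ X : List ℕ → ℕ,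
      (∀ τ, X τ ∈ cX.eval (encode τ)) → Hits c X K q ∨ ∀ q' : Cond, q ≤ q' → ¬ Hits c X K q'}

theorem Dns_dense (i : ℕ ⊕ Code ⊕ Code ⊕ (Code × Code × ℕ)) (p : Cond) :
    ∃ q : Cond, p ≤ q ∧ q ∈ Dns i := by
  rcases i with n | cx | c | ⟨c, cX, K⟩
  · obtain ⟨q, h1, h2, -⟩ := p.ext_len n
    exact ⟨q, h1, h2⟩
  · by_cases h : ∃ x : ℕ → ℕ, ComputableIn ∅ x ∧ ∀ n, x n ∈ cx.eval n
    · obtain ⟨x, hx, hx'⟩ := h
      obtain ⟨q, h1, k₀, h2⟩ := dense_hit hx p
      refine ⟨q, h1, fun y _ hy' => ⟨k₀, ?_⟩⟩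
      have : y = x := funext fun n => Part.mem_unique (hy' n) (hx' n)
      rw [this]; exact h2
    · exact ⟨p, le_rfl, fun x hx hx' => absurd ⟨x, hx, hx'⟩ h⟩
  · obtain ⟨q, h1, h2⟩ := dense_F c p
    exact ⟨q, h1, h2⟩
  · by_cases h : ∃ X : List ℕ → ℕ, ∀ τ, X τ ∈ cX.eval (encode τ)
    · obtain ⟨X, hX⟩ := h
      have huniq : ∀ Y : List ℕ → ℕ, (∀ τ, Y τ ∈ cX.eval (encode τ)) → Y = X := fun Y hY =>
        funext fun τ => Part.mem_unique (hY τ) (hX τ)
      by_cases h2 : ∃ q, p ≤ q ∧ Hits c X K q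
      · obtain ⟨q, hq1, hq2⟩ := h2
        refine ⟨q, hq1, fun Y hY => Or.inl ?_⟩
        rw [huniq Y hY]; exact hq2
      · refine ⟨p, le_rfl, fun Y hY => Or.inr ?_⟩
        rw [huniq Y hY]
        intro q' hq' hh
        exact h2 ⟨q', hq', hh⟩
    · exact ⟨p, le_rfl, fun X hX => absurd ⟨X, hX⟩ h⟩

theorem exists_chain : ∃ p : ℕ → Cond, Monotone p ∧ ∀ i, ∃ n, p n ∈ Dns i := by
  let 𝒟 : (ℕ ⊕ Code ⊕ Code ⊕ (Code × Code × ℕ)) → Order.Cofinal Cond := fun i =>
    ⟨Dns i, fun p => by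
      obtain ⟨q, h1, h2⟩ := Dns_dense i p
      exact ⟨q, h2, h1⟩⟩
  refine ⟨Order.sequenceOfCofinals cond0 𝒟, Order.sequenceOfCofinals.monotone _ _, fun i => ?_⟩
  exact ⟨_, Order.sequenceOfCofinals.encode_mem cond0 𝒟 i⟩

/-! ### The generic path -/

theorem length_seg (a : ℕ → ℕ) (n : ℕ) : (seg a n).length = n := by simp [seg]

theorem take_seg (a : ℕ → ℕ) (n m : ℕ) (h : m ≤ n) : (seg a n).take m = seg a m := by
  apply List.ext_getElem
  · simp [h, seg]
  · intro i h1 h2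
    simp [seg]

theorem exists_path {p : ℕ → Cond} (hp : Monotone p) (hd : ∀ i, ∃ n, p n ∈ Dns i) :
    ∃ a : ℕ → ℕ, ∀ n, seg a (p n).s.length = (p n).s := by
  have hlen : ∀ k, ∃ n, k < (p n).s.length := fun k => by
    obtain ⟨n, hn⟩ := hd (Sum.inl (k + 1))
    exact ⟨n, hn⟩
  choose N hN using hlen
  refine ⟨fun k => (p (N k)).s.getD k 0, fun n => ?_⟩
  apply List.ext_getElem
  · rw [length_seg]
  · intro k h1 h2
    have h3 : (seg (fun k => (p (N k)).s.getD k 0) (p n).s.length)[k]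
        = (p (N k)).s.getD k 0 := by simp [seg]
    rw [h3, List.getD_eq_getElem _ _ (hN k)]
    rcases le_total n (N k) with h | h
    · exact ((hp h).1.getElem h2).symm
    · exact (hp h).1.getElem (hN k)

/-- everything we need from the generic path -/
theorem exists_generic : ∃ a : ℕ → ℕ,
    (∀ x : ℕ → ℕ, Computable x → ∃ k₀, ∀ k ≥ k₀, ¬ Hit x k (a k)) ∧
    (∀ c : Code, (∃ m, ∀ n, ¬ DD c m (seg a n)) ∨
      ∃ x : ℕ → ℕ, Computable x ∧ ∀ K, ∃ m ≥ K, ∃ n, Ev c m (x m) (seg a n)) := by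
  obtain ⟨p, hp, hd⟩ := exists_chain
  obtain ⟨a, ha⟩ := exists_path hp hd
  -- the path avoids all bad sets
  have avoid : ∀ n k, ¬ (p n).B (seg a k) := by
    intro n k hB
    obtain ⟨n', hn'⟩ := hd (Sum.inl k)
    have h1 : p n ≤ p (max n n') := hp (le_max_left _ _)
    have h2 : p n' ≤ p (max n n') := hp (le_max_right _ _)
    have h3 : k ≤ (p (max n n')).s.length := le_trans hn' h2.1.length_le
    have h4 : seg a k <+: (p (max n n')).s := by
      rw [← ha]; exact seg_prefix a h3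
    exact (p (max n n')).not_B ((p (max n n')).mono _ _ h4 (h1.2.1 _ hB))
  refine ⟨a, ?_, ?_⟩
  · intro x hx
    obtain ⟨cx, hcx⟩ := exists_code.1 (Partrec.nat_iff.1 hx)
    obtain ⟨n, hn⟩ := hd (Sum.inr (Sum.inl cx))
    obtain ⟨k₀, hk₀⟩ := hn x hx.computableIn (fun n => by rw [hcx]; simp)
    refine ⟨k₀, fun k hk hhit => avoid n (k + 1) (hk₀ _ ⟨k, hk, ?_⟩)⟩
    have hl : k < (seg a (k + 1)).length := by rw [length_seg]; omega
    refine ⟨hl, ?_⟩
    have : (seg a (k + 1))[k] = a k := by simp [seg]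
    rw [this]; exact hhit
  · intro c
    obtain ⟨n, hn⟩ := hd (Sum.inr (Sum.inr (Sum.inl c)))
    rcases hn with ⟨m, hm⟩ | ⟨X, hX, hXh⟩
    · left
      exact ⟨m, fun k hk => avoid n k (hm _ hk)⟩
    · right
      -- the code of `X`
      have hX' : Computable X := computable_of_ci hX
      obtain ⟨cX, hcX⟩ := exists_code.1 hX'
      have hcX' : ∀ τ, X τ ∈ cX.eval (encode τ) := by
        intro τ
        rw [hcX]
        simp
      -- the node with a given index
      have hnode : ∃ nd : ℕ → ℕ, ComputableIn ∅ nd ∧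
          ∀ m, (inTb (Denumerable.ofNat (List ℕ) (nd m)) &&
            decide (mm (Denumerable.ofNat (List ℕ) (nd m)) = m)) = true := by
        refine exists_search (α := ℕ) (q := fun m z => inTb (Denumerable.ofNat (List ℕ) z) &&
            decide (mm (Denumerable.ofNat (List ℕ) z) = m)) ?_ ?_
        · have h1 : ComputableIn ∅ fun p : ℕ × ℕ => Denumerable.ofNat (List ℕ) p.2 :=
            ci_compC (f := fun z => Denumerable.ofNat (List ℕ) z) (Computable.ofNat _) ci_snd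
          exact cand (cinTb h1) (ceqN (cmm h1) ci_fst)
        · intro m
          obtain ⟨τ, h1, h2⟩ := exists_mm m
          refine ⟨encode τ, ?_⟩
          rw [Denumerable.ofNat_encode, Bool.and_eq_true, decide_eq_true_eq]
          exact ⟨(inTb_iff τ).2 h1, h2⟩
      obtain ⟨nd, hnd, hnd'⟩ := hnode
      have hnd2 : ∀ τ, InT τ → Denumerable.ofNat (List ℕ) (nd (mm τ)) = τ := by
        intro τ hτ
        have h1 := hnd' (mm τ)
        rw [Bool.and_eq_true, decide_eq_true_eq] at h1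
        exact mm_inj ((inTb_iff _).1 h1.1) hτ h1.2
      refine ⟨fun m => X (Denumerable.ofNat (List ℕ) (nd m)), ?_, ?_⟩
      · exact hX'.comp ((Computable.ofNat (List ℕ)).comp (computable_of_ci hnd))
      · intro K
        obtain ⟨n', hn'⟩ := hd (Sum.inr (Sum.inr (Sum.inr (c, cX, K))))
        have hits : Hits c X K (p n') := by
          rcases hn' X hcX' with h | h
          · exact h
          · exfalso
            obtain ⟨q'', h1, h2⟩ := hXh K (p (max n n')) (hp (le_max_left _ _))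
            exact h q'' ((hp (le_max_right _ _)).trans h1) h2
        obtain ⟨τ, h1, h2, h3⟩ := hits
        refine ⟨mm τ, h2.trans (le_mm τ), (p n').s.length, ?_⟩
        rw [ha]
        show Ev c (mm τ) (X (Denumerable.ofNat (List ℕ) (nd (mm τ)))) (p n').s
        rw [hnd2 τ ((p n').hs.of_prefix h1)]
        exact h3

end Pool.Agent.Y529.HC
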